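import Pool.Agent.H592.TR.Stm

/-!
# TR11 (helper400, for helper592): assembly
-/

set_option autoImplicit false

open Finset Filter Topology

namespace Pool.Agent.H592.TR

open Pool.Agent.H592.TD (In rho cc Good)

namespace L11

/-- the divisors `m` of `n` with `m² < n` -/
def sd (n : ℕ) : Finset ℕ := n.divisors.filter (fun m => m * m < n)

theorem two_sd (n : ℕ) : 2 * (sd n).card ≤ n.divisors.card := by
  have h1 := Finset.card_filter_add_card_filter_not (s := n.divisors) (fun m => m * m < n)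
  have h2 : (sd n).card ≤ (n.divisors.filter (fun m => ¬ m * m < n)).card := by
    refine Finset.card_le_card_of_injOn (fun m => n / m) ?_ ?_
    · intro m hm
      rw [Finset.mem_coe, sd, Finset.mem_filter, Nat.mem_divisors] at hm
      obtain ⟨⟨hd, hn⟩, hlt⟩ := hm
      rw [Finset.mem_coe, Finset.mem_filter, Nat.mem_divisors]
      refine ⟨⟨Nat.div_dvd_of_dvd hd, hn⟩, ?_⟩
      obtain ⟨k, rfl⟩ := hd
      have hm0 : 0 < m := Nat.pos_of_ne_zero (fun h => hn (by rw [h, Nat.zero_mul]))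
      show ¬ (m * k / m) * (m * k / m) < m * k
      rw [Nat.mul_div_cancel_left k hm0]
      have hmk : m < k := Nat.lt_of_mul_lt_mul_left hlt
      exact not_lt.2 (Nat.mul_le_mul_right k hmk.le)
    · intro m hm m' hm' he
      rw [Finset.mem_coe, sd, Finset.mem_filter, Nat.mem_divisors] at hm hm'
      dsimp only at he
      rw [← Nat.div_div_self hm.1.1 hm.1.2, he, Nat.div_div_self hm'.1.1 hm'.1.2]
  have h3 : (sd n).card = (n.divisors.filter (fun m => m * m < n)).card := rfl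
  omega

theorem mem_In {X α β : ℝ} (hX : 0 ≤ X) {a : ℕ} :
    a ∈ In X α β ↔ X ^ α < a ∧ (a : ℝ) ≤ X ^ β := by
  unfold In
  rw [Finset.mem_Ioc, Nat.floor_lt (Real.rpow_nonneg hX _), Nat.le_floor_iff (Real.rpow_nonneg hX _)]

theorem In_le {X : ℝ} (hX : 1 < X) {n k k' a : ℕ} (hn : 1 ≤ n)
    (h1 : a ∈ In X ((k : ℝ) / n) (((k : ℝ) + 1) / n))
    (h2 : a ∈ In X ((k' : ℝ) / n) (((k' : ℝ) + 1) / n)) : k ≤ k' := by
  rw [mem_In (by linarith)] at h1 h2
  have h3 : X ^ ((k : ℝ) / n) < X ^ (((k' : ℝ) + 1) / n) := h1.1.trans_le h2.2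
  rw [Real.rpow_lt_rpow_left_iff hX] at h3
  have hn0 : (0 : ℝ) < n := by exact_mod_cast hn
  rw [div_lt_div_iff_of_pos_right hn0] at h3
  have h4 : k < k' + 1 := by exact_mod_cast h3
  omega

/-- the divisors of `N` in the interval number `k` -/
noncomputable def dk (n : ℕ) (X : ℝ) (k N : ℕ) : Finset ℕ :=
  (In X ((k : ℝ) / n) (((k : ℝ) + 1) / n)).filter (fun m => m ∣ N)

/-- the box of the index `z` -/
noncomputable def Bx (n : ℕ) (X : ℝ) (z : Fin 3 → ℕ) (N : ℕ) : Finset (ℕ × ℕ × ℕ) :=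
  dk n X (z 0) N ×ˢ (dk n X (z 1) (N + 1) ×ˢ dk n X (z 2) (N + 2))

/-- the big set -/
def BN (N : ℕ) : Finset (ℕ × ℕ × ℕ) := sd N ×ˢ (sd (N + 1) ×ˢ sd (N + 2))

theorem card_BN (N : ℕ) :
    8 * (BN N).card ≤ N.divisors.card * (N + 1).divisors.card * (N + 2).divisors.card := by
  unfold BN
  rw [Finset.card_product, Finset.card_product]
  calc 8 * ((sd N).card * ((sd (N + 1)).card * (sd (N + 2)).card)) =
      (2 * (sd N).card) * (2 * (sd (N + 1)).card) * (2 * (sd (N + 2)).card) := by ring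
    _ ≤ _ := Nat.mul_le_mul (Nat.mul_le_mul (two_sd _) (two_sd _)) (two_sd _)

theorem Bx_disj {X : ℝ} (hX : 1 < X) {n : ℕ} (hn : 1 ≤ n) {N : ℕ} {z z' : Fin 3 → ℕ}
    {p : ℕ × ℕ × ℕ} (h : p ∈ Bx n X z N) (h' : p ∈ Bx n X z' N) : z = z' := by
  unfold Bx dk at h h'
  rw [Finset.mem_product, Finset.mem_product, Finset.mem_filter, Finset.mem_filter,
    Finset.mem_filter] at h h'
  obtain ⟨⟨a0, -⟩, ⟨a1, -⟩, ⟨a2, -⟩⟩ := h
  obtain ⟨⟨b0, -⟩, ⟨b1, -⟩, ⟨b2, -⟩⟩ := h'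
  funext i
  fin_cases i
  · exact le_antisymm (In_le hX hn a0 b0) (In_le hX hn b0 a0)
  · exact le_antisymm (In_le hX hn a1 b1) (In_le hX hn b1 a1)
  · exact le_antisymm (In_le hX hn a2 b2) (In_le hX hn b2 a2)

/-- `X` is large for the box `z` -/
structure Lg (n : ℕ) (X : ℝ) (z : Fin 3 → ℕ) : Prop where
  X1 : 1 < X
  p : ∀ i, X ^ (2 * (((z i : ℝ) + 1) / n)) ≤ X / (2 * Real.log X)

theorem dk_sub {n : ℕ} {X : ℝ} (hX : 1 < X) {k : ℕ}
    (hp : X ^ (2 * (((k : ℝ) + 1) / n)) ≤ X / (2 * Real.log X)) {N : ℕ}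
    (hN : X / (2 * Real.log X) < (N : ℝ)) : dk n X k N ⊆ sd N := by
  intro m hm
  have hX0 : 0 < X := by linarith
  have hlog : 0 < Real.log X := Real.log_pos hX
  unfold dk at hm
  rw [Finset.mem_filter, mem_In hX0.le] at hm
  obtain ⟨⟨h1, h2⟩, h3⟩ := hm
  have hN0 : N ≠ 0 := by
    rintro rfl
    rw [Nat.cast_zero] at hN
    have : 0 < X / (2 * Real.log X) := by positivity
    linarith
  unfold sd
  rw [Finset.mem_filter, Nat.mem_divisors]
  refine ⟨⟨h3, hN0⟩, ?_⟩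
  have h4 : ((m * m : ℕ) : ℝ) < (N : ℝ) := by
    calc ((m * m : ℕ) : ℝ) = (m : ℝ) * m := by push_cast; ring
      _ ≤ X ^ (((k : ℝ) + 1) / n) * X ^ (((k : ℝ) + 1) / n) :=
          mul_le_mul h2 h2 (Nat.cast_nonneg m) (Real.rpow_nonneg hX0.le _)
      _ = X ^ (2 * (((k : ℝ) + 1) / n)) := by
          rw [← Real.rpow_add hX0]
          ring_nf
      _ ≤ X / (2 * Real.log X) := hp
      _ < N := hN
  exact_mod_cast h4

theorem Bx_sub {n : ℕ} {X : ℝ} {z : Fin 3 → ℕ} (hL : Lg n X z) {N : ℕ}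
    (hN : X / (2 * Real.log X) < (N : ℝ)) : Bx n X z N ⊆ BN N := by
  unfold Bx BN
  refine Finset.product_subset_product (dk_sub hL.X1 (hL.p 0) hN)
    (Finset.product_subset_product (dk_sub hL.X1 (hL.p 1) ?_) (dk_sub hL.X1 (hL.p 2) ?_))
  · push_cast
    linarith
  · push_cast
    linarith

theorem sum_boxes {n : ℕ} (hn : 1 ≤ n) {X : ℝ} (hX : 1 < X) (K : Finset (Fin 3 → ℕ))
    (hL : ∀ z ∈ K, Lg n X z) {N : ℕ} (hN : X / (2 * Real.log X) < (N : ℝ)) :
    ∑ z ∈ K, (Bx n X z N).card ≤ (BN N).card := by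
  classical
  rw [← Finset.card_biUnion]
  · exact Finset.card_le_card (Finset.biUnion_subset.2 fun z hz => Bx_sub (hL z hz) hN)
  · intro z _ z' _ hne
    change Disjoint _ _
    rw [Finset.disjoint_left]
    intro p hp hp'
    exact hne (Bx_disj hX hn hp hp')

theorem C3_eq (n : ℕ) (X : ℝ) (z : Fin 3 → ℕ) :
    C3 X (fun i => (z i : ℝ) / n) (fun i => ((z i : ℝ) + 1) / n) =
      ∑ N ∈ Ioc ⌊X / (2 * Real.log X)⌋₊ ⌊X⌋₊, (Bx n X z N).card := by
  unfold C3
  refine Finset.sum_congr rfl fun N _ => ?_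
  unfold Bx dv dk
  rw [Finset.card_product, Finset.card_product, mul_assoc]

theorem total {n : ℕ} (hn : 1 ≤ n) {X : ℕ} (hX : 1 < (X : ℝ)) (K : Finset (Fin 3 → ℕ))
    (hL : ∀ z ∈ K, Lg n (X : ℝ) z) :
    8 * ∑ z ∈ K, C3 (X : ℝ) (fun i => (z i : ℝ) / n) (fun i => ((z i : ℝ) + 1) / n) ≤
      ∑ N ∈ Icc 1 X, N.divisors.card * (N + 1).divisors.card * (N + 2).divisors.card := by
  have hlog : 0 < Real.log (X : ℝ) := Real.log_pos hX
  have hX0 : (0 : ℝ) < X := by linarith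
  have e1 : ∑ z ∈ K, C3 (X : ℝ) (fun i => (z i : ℝ) / n) (fun i => ((z i : ℝ) + 1) / n) =
      ∑ N ∈ Ioc ⌊(X : ℝ) / (2 * Real.log X)⌋₊ ⌊(X : ℝ)⌋₊, ∑ z ∈ K, (Bx n X z N).card := by
    rw [Finset.sum_comm]
    exact Finset.sum_congr rfl fun z _ => C3_eq n X z
  rw [e1, Finset.mul_sum, Nat.floor_natCast]
  calc ∑ N ∈ Ioc ⌊(X : ℝ) / (2 * Real.log X)⌋₊ X, 8 * ∑ z ∈ K, (Bx n X z N).card ≤
      ∑ N ∈ Ioc ⌊(X : ℝ) / (2 * Real.log X)⌋₊ X,
        N.divisors.card * (N + 1).divisors.card * (N + 2).divisors.card := by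
        refine Finset.sum_le_sum fun N hN => ?_
        rw [Finset.mem_Ioc, Nat.floor_lt (by positivity)] at hN
        exact (Nat.mul_le_mul_left 8 (sum_boxes hn hX K hL hN.1)).trans (card_BN N)
    _ ≤ _ := by
        refine Finset.sum_le_sum_of_subset ?_
        intro N hN
        rw [Finset.mem_Ioc] at hN
        rw [Finset.mem_Icc]
        exact ⟨by omega, hN.2⟩

theorem ev_pow {θ : ℝ} (hθ : θ < 1) :
    ∀ᶠ X : ℝ in atTop, X ^ θ ≤ X / (2 * Real.log X) := by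
  have h1 := (isLittleO_log_rpow_atTop (sub_pos.2 hθ)).bound (by norm_num : (0 : ℝ) < 1 / 2)
  filter_upwards [h1, eventually_gt_atTop 1] with X hX hX1
  have hX0 : 0 < X := by linarith
  have hlog : 0 < Real.log X := Real.log_pos hX1
  rw [Real.norm_of_nonneg hlog.le, Real.norm_of_nonneg (Real.rpow_nonneg hX0.le _)] at hX
  rw [le_div_iff₀ (by positivity)]
  calc X ^ θ * (2 * Real.log X) ≤ X ^ θ * (2 * (1 / 2 * X ^ (1 - θ))) := by gcongr
    _ = X ^ θ * X ^ (1 - θ) := by ring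
    _ = X := by
        rw [← Real.rpow_add hX0]
        norm_num

/-- the inequalities at the corners -/
structure Cr (n : ℕ) (z : Fin 3 → ℕ) : Prop where
  pos : ∀ i, 0 < (z i : ℝ) / n
  half : ∀ i, ((z i : ℝ) + 1) / n < 1 / 2
  two : ∃ i j : Fin 3, i ≠ j ∧ ((z i : ℝ) + 1) / n + ((z j : ℝ) + 1) / n < 2 / 3

theorem cr_of {n : ℕ} (hn : 1 ≤ n) {z : Fin 3 → ℕ} {i j : Fin 3} (hij : i ≠ j)
    (h : cell n z ⊆ Reg i j) : Cr n z := by
  have hn0 : (0 : ℝ) < n := by exact_mod_cast hn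
  have hle : ∀ i, (z i : ℝ) / n ≤ ((z i : ℝ) + 1) / n := fun i => by gcongr; linarith
  have hlow : (fun i => (z i : ℝ) / n) ∈ cell n z := fun i => ⟨le_rfl, hle i⟩
  have hup : (fun i => ((z i : ℝ) + 1) / n) ∈ cell n z := fun i => ⟨hle i, le_rfl⟩
  have l := h hlow
  have u := h hup
  exact ⟨fun k => (l.1 k).1, fun k => (u.1 k).2, i, j, hij, u.2⟩

theorem ev_lg (n : ℕ) {z : Fin 3 → ℕ} (hc : Cr n z) : ∀ᶠ X : ℕ in atTop, Lg n (X : ℝ) z := by
  have ht : Tendsto (fun X : ℕ => (X : ℝ)) atTop atTop := tendsto_natCast_atTop_atTop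
  have h1 : ∀ i : Fin 3, ∀ᶠ X : ℕ in atTop,
      (X : ℝ) ^ (2 * (((z i : ℝ) + 1) / n)) ≤ (X : ℝ) / (2 * Real.log X) := fun i =>
    ht.eventually (ev_pow (by linarith [hc.half i]))
  filter_upwards [Filter.eventually_all.2 h1, ht.eventually (eventually_gt_atTop (1 : ℝ))]
    with X x1 x2
  exact ⟨x2, x1⟩

theorem isOpen_Cube : IsOpen Cube := by
  have e : Cube = Set.pi Set.univ (fun _ : Fin 3 => Set.Ioo (0 : ℝ) (1 / 2)) := by
    ext z
    rw [Set.mem_univ_pi]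
    rfl
  rw [e]
  exact isOpen_set_pi Set.finite_univ fun _ _ => isOpen_Ioo

theorem isOpen_Reg (i j : Fin 3) : IsOpen (Reg i j) := by
  have c : ∀ i : Fin 3, Continuous fun z : Fin 3 → ℝ => z i := fun i => continuous_apply i
  exact isOpen_Cube.inter (isOpen_lt ((c i).add (c j)) continuous_const)

theorem bdd_Reg (i j : Fin 3) : Bornology.IsBounded (Reg i j) := by
  refine (Metric.isBounded_Icc (0 : Fin 3 → ℝ) 1).subset ?_
  rintro z ⟨hz, -⟩
  refine ⟨fun k => (hz k).1.le, fun k => ?_⟩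
  change z k ≤ 1
  linarith [(hz k).2]

end L11

open L11 in
theorem t11 : T5 → T8 → T9 → T10 → T11 := by
  classical
  intro h5 h8 h9 h10 c hc
  have hC : 0 < CC := h5.1
  have hvol : c / 8 < (MeasureTheory.volume (Reg 0 1 ∪ Reg 0 2 ∪ Reg 1 2)).toReal := by
    refine lt_of_lt_of_le ?_ h10
    linarith
  obtain ⟨n, K, hn, hK, hKv⟩ := h9 (Reg 0 1) (Reg 0 2) (Reg 1 2) (isOpen_Reg _ _) (isOpen_Reg _ _)
    (isOpen_Reg _ _) (bdd_Reg _ _) (bdd_Reg _ _) (bdd_Reg _ _) (by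
      rintro t ((ht | ht) | ht) i
      · exact (ht.1 i).1
      · exact (ht.1 i).1
      · exact (ht.1 i).1) (c / 8) hvol
  have hn0 : (0 : ℝ) < n := by exact_mod_cast hn
  have hcr : ∀ z ∈ K, Cr n z := by
    intro z hz
    rcases hK z hz with h1 | h1 | h1
    · exact cr_of hn (by decide) h1
    · exact cr_of hn (by decide) h1
    · exact cr_of hn (by decide) h1
  have ht : Tendsto (fun X : ℕ => (X : ℝ)) atTop atTop := tendsto_natCast_atTop_atTop
  have hcast : ∀ X : ℕ, ∑ N ∈ Icc 1 X,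
      (N.divisors.card : ℝ) * (N + 1).divisors.card * (N + 2).divisors.card =
      ((∑ N ∈ Icc 1 X, N.divisors.card * (N + 1).divisors.card * (N + 2).divisors.card : ℕ) : ℝ) := by
    intro X
    push_cast
    rfl
  rcases K.eq_empty_or_nonempty with hK0 | hK0
  · rw [hK0] at hKv
    simp only [Finset.card_empty, Nat.cast_zero, zero_div] at hKv
    filter_upwards [ht.eventually (eventually_gt_atTop (1 : ℝ))] with X hX
    have hlog : 0 < Real.log X := Real.log_pos hX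
    have h2 : c * (CC * ((X : ℝ) * Real.log X ^ 3)) ≤ 0 :=
      mul_nonpos_of_nonpos_of_nonneg (by linarith) (by positivity)
    exact h2.trans (Finset.sum_nonneg fun N _ => by positivity)
  have hKc : (0 : ℝ) < K.card := by exact_mod_cast hK0.card_pos
  obtain ⟨v', hv'⟩ : ∃ v' : ℝ, v' = c / 8 * CC / K.card := ⟨_, rfl⟩
  have hvv : (K.card : ℝ) * v' = c / 8 * CC := by rw [hv']; field_simp
  have hv1 : v' < 1 / (n : ℝ) ^ 3 * CC := by
    rw [hv', div_lt_iff₀ hKc]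
    calc c / 8 * CC < (K.card : ℝ) / (n : ℝ) ^ 3 * CC := mul_lt_mul_of_pos_right hKv hC
      _ = 1 / (n : ℝ) ^ 3 * CC * K.card := by ring
  have hdiff : ∀ k : ℕ, ((k : ℝ) + 1) / n - (k : ℝ) / n = 1 / n := fun k => by
    rw [← sub_div]; congr 1; ring
  have hlt : ∀ k : ℕ, (k : ℝ) / n < ((k : ℝ) + 1) / n := fun k => by
    have := hdiff k
    have : 0 < 1 / (n : ℝ) := by positivity
    linarith
  have hbox : ∀ z ∈ K, ∀ᶠ X : ℕ in atTop, v' * ((X : ℝ) * Real.log X ^ 3) ≤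
      (C3 (X : ℝ) (fun i => (z i : ℝ) / n) (fun i => ((z i : ℝ) + 1) / n) : ℝ) := by
    intro z hz
    have hc' := hcr z hz
    have e := h8 (fun i => (z i : ℝ) / n) (fun i => ((z i : ℝ) + 1) / n)
      (fun i => ⟨hc'.pos i, hlt (z i), (hc'.half i).le⟩) hc'.two v' (by
        have : (∏ i : Fin 3, (((z i : ℝ) + 1) / n - (z i : ℝ) / n)) = 1 / (n : ℝ) ^ 3 := by
          simp only [hdiff]
          rw [Finset.prod_const, Finset.card_univ, Fintype.card_fin, one_div, one_div, inv_pow]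
        rw [this]
        exact hv1)
    exact ht.eventually e
  filter_upwards [(Filter.eventually_all_finset K).2 hbox,
    (Filter.eventually_all_finset K).2 (fun z hz => ev_lg n (hcr z hz)),
    ht.eventually (eventually_gt_atTop (1 : ℝ))] with X x1 x2 x3
  rw [hcast X]
  calc c * (CC * ((X : ℝ) * Real.log X ^ 3)) =
      8 * ∑ z ∈ K, v' * ((X : ℝ) * Real.log X ^ 3) := by
        rw [Finset.sum_const, nsmul_eq_mul]
        have : 8 * ((K.card : ℝ) * (v' * ((X : ℝ) * Real.log X ^ 3))) =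
          8 * ((K.card : ℝ) * v') * ((X : ℝ) * Real.log X ^ 3) := by ring
        rw [this, hvv]
        ring
    _ ≤ 8 * ∑ z ∈ K, (C3 (X : ℝ) (fun i => (z i : ℝ) / n) (fun i => ((z i : ℝ) + 1) / n) : ℝ) :=
        mul_le_mul_of_nonneg_left (Finset.sum_le_sum x1) (by norm_num)
    _ = ((8 * ∑ z ∈ K,
          C3 (X : ℝ) (fun i => (z i : ℝ) / n) (fun i => ((z i : ℝ) + 1) / n) : ℕ) : ℝ) := by
        push_cast
        rfl
    _ ≤ _ := by exact_mod_cast total hn x3 K x2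

end Pool.Agent.H592.TR
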